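import Pool.Agent.H363D.ApspF

/-!
# All-pairs shortest paths on machines with a memory in `d`-dimensional space

The memory of the machine is the lattice `ℤ ^ d`; it is unbounded, but it can be accessed only
locally. In every step each cell may read one entry of the matrix of weights, assume a new state and
write one of the distances. The rules are arbitrary, they may depend on the time and on the position
of the cell (so all arithmetic inside the cells is free), except that a cell sees only its
neighbours, and that a blank cell with blank neighbours does nothing. At the beginning all cells but
one are blank. So this includes Turing machines with one head on a `d`-dimensional tape and free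
access to the input, meshes of processors, cellular automata and synchronous VLSI circuits. What is
counted is the number `W` of activations, that is, of the pairs `(t, v)` such that the cell `v`
changes its state, reads, or writes in the step `t`. The weights may be read at any time, at any
place and any number of times.

The theorem says that APSP needs `W ≥ N ^ (2 + 2 / (d + 1) - o(1))`, already if all edges have weight
one, while there are only `N ^ 2` distances. In particular it needs `W ≥ N ^ (3 - o(1))` if the memory
is one-dimensional: then the APSP hypothesis is true, however many cells work at the same time.

Proof. Cut the space into cubes of side `b`, with a random shift, so that the number of activations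
next to a face is `O (W / b)`. Cut the history of every cube into windows with at most `τ`
activations in the cube and `b ^ d` next to it. A window is determined by the contents of the cube at
its beginning, the changes next to the cube and the entries that are read. The graphs and the
counting of the disconnected pairs are those of the bound for algorithms with bounded memory in the
files at the start of this project (`MP_885423_lc`, `SpaceBoundedAPSP`, `StackTradeoff`), but
now windows of all sizes have to be compared with the same family of graphs: a window with `a` reads
and `x` changes next to the cube outputs `(a b ^ d / N ^ 2 + b ^ d + x) (log N) ^ O (1)` disconnected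
pairs (without the summand `b ^ d` for the first window of a cube), with high probability.
-/

set_option autoImplicit false

namespace Pool.Agent.Results.MP_885423_lc.SpatialMemory

open Pool.Agent.W896.MO (dists)
open Pool.Agent.H537R2.Apsp (Graph)
open Pool.Agent.H363D (Machine)

/-- For every `d` there is a constant `C` such that the following holds for all large `N` and all
finite sets `Γ` and `T`, `W`. Let `P r`, for a uniformly random `r : R`, be machines with the states
`Γ` and memory `ℤ ^ d`, such that for every directed graph on `N` vertices all of whose edges have
weight `1` the machine `P r` outputs all distances, in `T` steps with at most `W` activations, with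
probability more than `1/2`. Then
`N ^ (2 d + 4) < C (W (log₂ |Γ| + log₂ T + 1)) ^ (d + 1) (⌊log₂ N⌋) ^ (6 d + 10)`. -/
theorem result (d : ℕ) : ∃ C : ℝ, 0 < C ∧ ∀ᶠ N : ℕ in Filter.atTop,
    ∀ (Γ : Type) [Fintype Γ] (T W : ℕ) (R : Type) [Fintype R]
      (P : R → Machine d (Fin N × Fin N) (Fin N × Fin N) ℕ∞ Γ),
      (∀ w : Graph N, (∀ p, w p = 1 ∨ w p = ⊤) →
        Nat.card R < 2 * Nat.card {r : R // (P r).Computes w (dists w) T W}) →
      (N : ℝ) ^ (2 * d + 4) <
        C * ((W : ℝ) * (Real.logb 2 (Fintype.card Γ) + Real.logb 2 T + 1)) ^ (d + 1) *
          (Nat.log 2 N : ℝ) ^ (6 * d + 10) :=
  Pool.Agent.H363DA.apsp_space d

end Pool.Agent.Results.MP_885423_lc.SpatialMemory
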